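import Pool.Agent.Helper85.FC.Bounded
import Pool.Agent.Helper83.FC.FCKleene
import Pool.Agent.Helper62.FCNormal
import Pool.Agent.Helper45.FCLevi
import Pool.Agent.Helper49.FC.FCUnion
import Pool.Agent.Helper99.FCRuns

/-!
`FC[REG]` conjunctive queries and the existential positive theory of concatenation with
regular constraints define the same languages.
-/

namespace Pool.Agent.Results.MP_cb855e_lc.ClassesCoincide

open Pool.Agent.Helper85.FC

/-- Queries with regular languages as constraints define the same languages as queries with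
regular expressions. -/
theorem scq_to_cq (A : Type) [Fintype A] (φ : SCQ A ℕ) (hφ : φ.Reg) :
    ∃ ψ : CQ A ℕ, ψ.lang = φ.lang 0 := by
  have hK := Pool.Agent.Helper83.FCKleene.kleene.2
  choose! E hE using fun (r : ℕ × Language A) (hr : r ∈ φ.regs) => hK A r.2 (hφ r hr)
  refine ⟨⟨φ.eqs, φ.regs.map fun r => (r.1, E r)⟩, ?_⟩
  ext u
  constructor
  · rintro ⟨σ, h1, ⟨h2, h3⟩, h4⟩
    refine ⟨σ, fun x => ?_, ⟨h2, fun r hr => ?_⟩, h4⟩
    · obtain ⟨p, s, hps⟩ := h1 x
      exact ⟨p, s, hps.symm⟩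
    · have := h3 (r.1, E r) (List.mem_map.2 ⟨r, hr, rfl⟩)
      simp only at this
      rwa [hE r hr] at this
  · rintro ⟨σ, h1, ⟨h2, h3⟩, h4⟩
    refine ⟨σ, fun x => ?_, ⟨h2, fun r hr => ?_⟩, h4⟩
    · obtain ⟨p, s, hps⟩ := h1 x
      exact ⟨p, s, hps.symm⟩
    · obtain ⟨r', hr', rfl⟩ := List.mem_map.1 hr
      simp only
      rw [hE r' hr']
      exact h3 r' hr'

/-- For every finite alphabet, the class of languages defined by `FC[REG]` conjunctive queries
equals the class of languages defined by the existential positive theory of concatenation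
with regular constraints. -/
theorem result (A : Type) [Fintype A] : ClassFCRegCQ A = ClassEPCReg A := by
  ext L
  constructor
  · rintro ⟨φ, rfl⟩
    exact Pool.Agent.Helper62.FCNormal.easyInclusion A φ
  · rintro ⟨ψ, -, rfl⟩
    obtain ⟨l, hl, hψ⟩ := Pool.Agent.Helper62.FCNormal.normalForm A ψ
    have hreg : ∀ S ∈ l, S.2.Reg := by
      intro S hS r hr
      obtain ⟨P, hP⟩ := hl S hS r hr
      rw [← hP]
      exact Pool.Agent.Helper83.FCKleene.kleene.1 A P
    have hS := Pool.Agent.Helper45.FCLevi.sysToUnion (bounded Pool.Agent.Helper99.FCRuns.sr)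
    choose! f hf1 hf2 using fun (S : (k : ℕ) × Sys A (Fin (k + 1))) (h : S.2.Reg) =>
      hS A (Fin (S.1 + 1)) 0 S.2 h
    obtain ⟨χ, hχ, hχ2⟩ := Pool.Agent.Helper49.FCUnion.union A (l.flatMap f) (by
      intro φ hφ
      obtain ⟨S, hSl, hφS⟩ := List.mem_flatMap.1 hφ
      exact hf1 S (hreg S hSl) φ hφS)
    obtain ⟨φ, hφ⟩ := scq_to_cq A χ hχ
    refine ⟨φ, ?_⟩
    rw [hφ, hχ2, hψ]
    ext u
    constructor
    · rintro ⟨θ, hθ, hu⟩
      obtain ⟨S, hSl, hθS⟩ := List.mem_flatMap.1 hθ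
      exact ⟨S, hSl, (hf2 S (hreg S hSl) u).2 ⟨θ, hθS, hu⟩⟩
    · rintro ⟨S, hSl, hu⟩
      obtain ⟨θ, hθ, hu'⟩ := (hf2 S (hreg S hSl) u).1 hu
      exact ⟨θ, List.mem_flatMap.2 ⟨S, hSl, hθ⟩, hu'⟩

end Pool.Agent.Results.MP_cb855e_lc.ClassesCoincide
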